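import Pool.Agent.Helper8.LL.E2
import Pool.Agent.Helper8.LL.X3
import Pool.Agent.Helper28.POSB.Basins
import Pool.Agent.Helper91.PL.MU

/-!
# A local limit theorem for the heights

`T n = n / d` if `d ∣ n`, `T n = (m n - r_j) / d` if `n ≡ j (mod d)`, `1 ≤ j ≤ d - 1`, as in the problem file, with coprime `2 ≤ d < m ≤ d ^ (d / (d - 1))` and
admissible residues. Let `F` be any set of integers which is bounded above; `n` has the height `t = τ(n)` if `t` is the number of the steps from `n` to `F`.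
Uniformly in `t = 0, 1, 2, …`, as `x → ∞`,
  `#{n ≤ x : τ(n) = t} = x / (σ √(log x)) (φ(u) W(z) + o(1))`, `u = (t - log x / γ) / (σ √(log x))`, `z = (log x - t log d) / log m`,
`φ` the density of the standard normal law, with a continuous function `W` of period `1` which depends on `F`; explicitly `W(z)` is `m log m / (m - 1)` times the mean value
of `m ^ (-{z - (log n - τ(n) log d) / log m})` over all positive integers `n` (`0` if `τ(n) = ∞`); the mean of `W` over a period is the natural density `D` of the integers which have a height.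
If `T ^ τ(n) n = a` is reached after `s` multiplications by `m` then `log n - τ(n) log d = log ρ(n) - s log m`, `ρ(n) = n m ^ s / d ^ τ(n)` (about `a`): so `W` is a smoothing of the law of
`log ρ(n) / log m` modulo `1`. For `F = {n ≤ b}`, `b` large, `W` is not constant: the heights of the integers near `x` are not smoothly distributed.

Structure of the proof (`Helper8/LL/README.md`): fine-scale mixing (`Helper52.Tao`), the flow for means of families of functions (A0, A); the order `x / √(log x)` of one member (B); the means are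
nearly invariant under `(log x, t) → (log x + a log d + b log m, t + a)` (C); an exact summation formula (D); the joint law of the height and the position `(log n - τ log d) / log m` modulo `1`
(S, G, J1, J), which has no atoms (T, Z); assembly (N, E, E2); `W` is not constant (X1, X2, X3).
-/

set_option autoImplicit false

namespace Pool.Agent.Results.MP_fd8838_nt.LocalLimitTheorem

open Pool.Agent.Helper68.Moeller Pool.Agent.Helper91 Pool.Agent.Helper8 Pool.Agent.Helper28 ProbabilityTheory Filter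
  Topology

/-- The number of the positive elements `≤ x`. -/
noncomputable def count (A : Set ℤ) (x : ℝ) : ℝ := ({n : ℤ | n ∈ A ∧ 0 < n ∧ (n : ℝ) ≤ x}.ncard : ℝ)

/-- The natural density (in the positive integers). -/
def HasDensity (A : Set ℤ) (δ : ℝ) : Prop := Tendsto (fun x : ℝ => count A x / x) atTop (𝓝 δ)

/-- `γ = log d - (1 - 1 / d) log m`. -/
noncomputable def drift (d m : ℕ) : ℝ := Real.log d - (1 - 1 / (d : ℝ)) * Real.log m

/-- `σ = (log m) (√(d - 1) / d) γ ^ (-3/2)`. -/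
noncomputable def sdev (d m : ℕ) : ℝ := Real.log m * (Real.sqrt (d - 1) / d) / drift d m ^ (3 / 2 : ℝ)

/-- `a` is dead: the number of the points not divisible by `d` on the path from `n` to `a` is bounded,
for the integers `n` whose orbit contains `a`. -/
def Dead (d m : ℕ) (r : ℤ → ℤ) (a : ℤ) : Prop :=
  ∃ k : ℕ, ∀ (n : ℤ) (t : ℕ), (T d m r)^[t] n = a →
    ((Finset.range t).filter (fun i => ¬ (d : ℤ) ∣ (T d m r)^[i] n)).card < k

/-- `n` has the height `t`: its orbit is in `F` at the time `t`, and not before. -/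
def Height (d m : ℕ) (r : ℤ → ℤ) (F : Set ℤ) (t : ℕ) (n : ℤ) : Prop :=
  (T d m r)^[t] n ∈ F ∧ ∀ i < t, (T d m r)^[i] n ∉ F

/-- The height of `n` (if it has one). -/
noncomputable def tau (d m : ℕ) (r : ℤ → ℤ) (F : Set ℤ) (n : ℤ) : ℕ := sInf {t : ℕ | (T d m r)^[t] n ∈ F}

/-- `m ^ (-{z - (log n - τ(n) log d) / log m})`, and `0` if `n` does not have a height. -/
noncomputable def weight (d m : ℕ) (r : ℤ → ℤ) (F : Set ℤ) (z : ℝ) (n : ℤ) : ℝ := by
  classical exact if ∃ t : ℕ, (T d m r)^[t] n ∈ F then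
    (m : ℝ) ^ (-Int.fract (z - (Real.log n - tau d m r F n * Real.log d) / Real.log m)) else 0

/-- The mean value of `f` over the positive integers. -/
noncomputable def meanValue (f : ℤ → ℝ) : ℝ := limUnder atTop fun x : ℝ => (∑ n ∈ Finset.Icc 1 ⌊x⌋₊, f (n : ℤ)) / x

/-- The periodic factor. -/
noncomputable def W (d m : ℕ) (r : ℤ → ℤ) (F : Set ℤ) (z : ℝ) : ℝ :=
  m * Real.log m / (m - 1) * meanValue (weight d m r F z)

/-- The density of the standard normal law. -/
noncomputable def φ (u : ℝ) : ℝ := Real.exp (-u ^ 2 / 2) / Real.sqrt (2 * Real.pi)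

/-- The map `(3x + 1) / 2`, `x / 2`. -/
def T3 : ℤ → ℤ := T 2 3 (fun _ => -1)

theorem sdev_eq {d m : ℕ} (hd : 2 ≤ d) (hγ : 0 < drift d m) : sdev d m = ST.sd d m := by
  have hd0 : (0 : ℝ) < d := by exact_mod_cast (by omega : 0 < d)
  have hd1 : (1 : ℝ) ≤ d := by exact_mod_cast (by omega : 1 ≤ d)
  have e1 : drift d m ^ (3 / 2 : ℝ) = drift d m * Real.sqrt (drift d m) := by
    rw [Real.sqrt_eq_rpow, show (3 / 2 : ℝ) = 1 + 1 / 2 by norm_num, Real.rpow_add hγ, Real.rpow_one]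
  have e2 : Real.sqrt ((1 - 1 / (d : ℝ)) * (1 / (d : ℝ))) = Real.sqrt ((d : ℝ) - 1) / d := by
    have e3 : (1 - 1 / (d : ℝ)) * (1 / (d : ℝ)) = ((d : ℝ) - 1) / (d : ℝ) ^ 2 := by
      field_simp
    rw [e3, Real.sqrt_div (by linarith), Real.sqrt_sq hd0.le]
  unfold sdev ST.sd
  rw [e1, e2]
  rfl

theorem phi_eq (u : ℝ) : φ u = gaussianPDFReal 0 1 u := by
  unfold φ gaussianPDFReal
  rw [NNReal.coe_one, mul_one, mul_one, sub_zero, div_eq_mul_inv, mul_comm]

theorem height_iff {d m : ℕ} {r : ℤ → ℤ} {F : Set ℤ} (t : ℕ) (n : ℤ) : Height d m r F t n ↔ LL.Ht d m r F t n := by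
  unfold Height LL.Ht
  constructor
  · rintro ⟨h1, h2⟩
    exact ⟨t, rfl, h1, h2⟩
  · rintro ⟨k, hk, h1, h2⟩
    have : k = t := by exact_mod_cast hk
    rw [← this]
    exact ⟨h1, h2⟩

theorem tau_eq {d m : ℕ} {r : ℤ → ℤ} {F : Set ℤ} {t : ℕ} {n : ℤ} (h : Height d m r F t n) : tau d m r F n = t := by
  unfold tau
  apply le_antisymm
  · exact Nat.sInf_le h.1
  · by_contra hcon
    push Not at hcon
    exact h.2 _ hcon (Nat.sInf_mem (s := {t : ℕ | (T d m r)^[t] n ∈ F}) ⟨t, h.1⟩)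

theorem weight_eq {d m : ℕ} {r : ℤ → ℤ} {F : Set ℤ} (z : ℝ) (n : ℤ) : weight d m r F z n = LL.al d m r F (LL.ww m z) n := by
  classical
  by_cases h : ∃ t : ℕ, (T d m r)^[t] n ∈ F
  · obtain ⟨t, ht⟩ : ∃ t : ℕ, Height d m r F t n := ⟨Nat.find h, Nat.find_spec h, fun i hi => Nat.find_min h hi⟩
    rw [LL.al_eq ((height_iff t n).1 ht)]
    unfold weight
    rw [if_pos h, tau_eq ht]
    unfold LL.ww LL.pos
    push_cast
    rfl
  · rw [LL.al_eq_zero]
    · unfold weight
      rw [if_neg h]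
    · rintro t ⟨k, -, hk, -⟩
      exact h ⟨k, hk⟩

theorem meanValue_weight {d m : ℕ} {r : ℤ → ℤ} {F : Set ℤ} (z : ℝ) :
    meanValue (weight d m r F z) = LL.W0 d m r F z := by
  unfold meanValue LL.W0 LL.mean LL.am
  congr 1
  funext x
  simp only [weight_eq]

theorem number_eq {d m : ℕ} {r : ℤ → ℤ} {F : Set ℤ} (t : ℕ) {x : ℝ} (hx : 0 < x) :
    count {n | Height d m r F t n} x = x * LL.am (LL.ex d m r F (fun _ => 1) t) x := by
  classical
  have h1 : count {n | Height d m r F t n} x = ND.cN {n | Height d m r F t n} x := rfl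
  rw [h1, PL.cN_eq_sum _ hx.le]
  unfold LL.am
  rw [mul_div_cancel₀ _ hx.ne']
  refine Finset.sum_congr rfl fun n _ => ?_
  by_cases h : Height d m r F t n
  · rw [LL.ex_eq ((height_iff t n).1 h)]
    exact if_pos h
  · rw [LL.ex_eq_zero fun h2 => h ((height_iff t n).2 h2)]
    exact if_neg h

theorem am_one {d m : ℕ} {r : ℤ → ℤ} {F : Set ℤ} {x : ℝ} (hx : 0 ≤ x) :
    LL.am (LL.al d m r F (fun _ => 1)) x = count {n | ∃ t : ℕ, (T d m r)^[t] n ∈ F} x / x := by
  classical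
  have h1 : count {n | ∃ t : ℕ, (T d m r)^[t] n ∈ F} x = ND.cN {n | ∃ t : ℕ, (T d m r)^[t] n ∈ F} x := rfl
  rw [h1, PL.cN_eq_sum _ hx]
  unfold LL.am
  congr 1
  refine Finset.sum_congr rfl fun n _ => ?_
  by_cases h : ∃ t : ℕ, (T d m r)^[t] (n : ℤ) ∈ F
  · obtain ⟨t, ht⟩ := LL.mem_hitI_iff.1 (show (n : ℤ) ∈ ST.hitI d m r F from h)
    rw [LL.al_eq ht]
    exact (if_pos h).symm
  · rw [LL.al_eq_zero]
    · exact (if_neg h).symm
    · intro t ht
      exact h (LL.mem_hitI_iff.2 ⟨t, ht⟩)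

theorem ww_bounds {m : ℕ} (hm : 2 ≤ m) (z y : ℝ) : 1 / (m : ℝ) ≤ LL.ww m z y ∧ LL.ww m z y ≤ 1 := by
  have hm1 : (1 : ℝ) ≤ m := by exact_mod_cast (by omega : 1 ≤ m)
  unfold LL.ww
  constructor
  · rw [one_div, ← Real.rpow_neg_one]
    exact Real.rpow_le_rpow_of_exponent_le hm1 (by linarith [Int.fract_lt_one (z - y)])
  · exact Real.rpow_le_one_of_one_le_of_nonpos hm1 (by linarith [Int.fract_nonneg (z - y)])

theorem al_bounds {d m : ℕ} {r : ℤ → ℤ} {F : Set ℤ} (hm : 2 ≤ m) (z : ℝ) (n : ℤ) :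
    1 / (m : ℝ) * LL.al d m r F (fun _ => 1) n ≤ LL.al d m r F (LL.ww m z) n ∧
      LL.al d m r F (LL.ww m z) n ≤ LL.al d m r F (fun _ => 1) n := by
  by_cases h : ∃ t : ℤ, LL.Ht d m r F t n
  · obtain ⟨t, ht⟩ := h
    rw [LL.al_eq ht, LL.al_eq ht, mul_one]
    exact ww_bounds hm z _
  · push Not at h
    rw [LL.al_eq_zero h, LL.al_eq_zero h, mul_zero]
    exact ⟨le_rfl, le_rfl⟩

/-- The integral over a period. -/
theorem integral_ww {m : ℕ} (hm : 2 ≤ m) (y : ℝ) :
    ∫ z in (0 : ℝ)..1, LL.ww m z y = (1 - 1 / (m : ℝ)) / Real.log m := by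
  have hm1 : (1 : ℝ) < m := by exact_mod_cast (by omega : 1 < m)
  have hm0 : (0 : ℝ) < m := by linarith
  have hlm : 0 < Real.log m := Real.log_pos hm1
  have hper : Function.Periodic (fun z : ℝ => (m : ℝ) ^ (-Int.fract z)) 1 := fun z => by
    simp only [Int.fract_add_one]
  have h1 : ∫ z in (0 : ℝ)..1, LL.ww m z y = ∫ z in (0 : ℝ)..1, (m : ℝ) ^ (-Int.fract z) := by
    unfold LL.ww
    rw [intervalIntegral.integral_comp_sub_right (fun z : ℝ => (m : ℝ) ^ (-Int.fract z)) y]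
    have h2 := hper.intervalIntegral_add_eq (0 - y) 0
    rw [zero_add] at h2
    rw [← h2]
    congr 1
    ring
  have h2 : ∫ z in (0 : ℝ)..1, (m : ℝ) ^ (-Int.fract z) = ∫ z in (0 : ℝ)..1, (m : ℝ) ^ (-z) := by
    rw [intervalIntegral.integral_of_le zero_le_one, intervalIntegral.integral_of_le zero_le_one,
      ← MeasureTheory.integral_Ico_eq_integral_Ioc, ← MeasureTheory.integral_Ico_eq_integral_Ioc]
    refine MeasureTheory.setIntegral_congr_fun measurableSet_Ico fun z hz => ?_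
    simp only [Int.fract_eq_self.2 ⟨hz.1, hz.2⟩]
  have h3 : ∫ z in (0 : ℝ)..1, (m : ℝ) ^ (-z) = (1 - 1 / (m : ℝ)) / Real.log m := by
    have hder : ∀ z ∈ Set.uIcc (0 : ℝ) 1, HasDerivAt (fun z : ℝ => -((m : ℝ) ^ (-z)) / Real.log m) ((m : ℝ) ^ (-z)) z := by
      intro z _
      have h4 : HasDerivAt (fun z : ℝ => (m : ℝ) ^ (-z)) (Real.log m * (-1) * (m : ℝ) ^ (-z)) z := by
        have := (hasDerivAt_neg z).const_rpow (a := (m : ℝ)) hm0
        convert this using 1
      have h5 : HasDerivAt (fun z : ℝ => -((m : ℝ) ^ (-z)) / Real.log m) (-(Real.log m * (-1) * (m : ℝ) ^ (-z)) / Real.log m) z :=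
        (h4.fun_neg).div_const (Real.log m)
      refine h5.congr_deriv ?_
      rw [show -(Real.log m * (-1) * (m : ℝ) ^ (-z)) = Real.log m * (m : ℝ) ^ (-z) by ring, mul_div_cancel_left₀ _ hlm.ne']
    rw [intervalIntegral.integral_eq_sub_of_hasDerivAt hder]
    · rw [neg_zero, Real.rpow_zero, Real.rpow_neg_one, one_div]
      field_simp
      ring
    · apply Continuous.intervalIntegrable
      exact continuous_const.rpow continuous_neg fun _ => Or.inl hm0.ne'
  rw [h1, h2, h3]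

theorem measurable_ww {m : ℕ} (y : ℝ) : Measurable (fun z => LL.ww m z y) := by
  unfold LL.ww
  exact measurable_const.pow ((measurable_fract.comp (measurable_id.sub_const y)).neg)

theorem measurable_al {d m : ℕ} {r : ℤ → ℤ} {F : Set ℤ} (n : ℤ) : Measurable (fun z => LL.al d m r F (LL.ww m z) n) := by
  by_cases h : ∃ t : ℤ, LL.Ht d m r F t n
  · obtain ⟨t, ht⟩ := h
    simp only [LL.al_eq ht]
    exact measurable_ww _
  · push Not at h
    simp only [LL.al_eq_zero h]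
    exact measurable_const

theorem al_one_le {d m : ℕ} {r : ℤ → ℤ} {F : Set ℤ} (n : ℤ) : 0 ≤ LL.al d m r F (fun _ => 1) n ∧ LL.al d m r F (fun _ => 1) n ≤ 1 := by
  by_cases h : ∃ t : ℤ, LL.Ht d m r F t n
  · obtain ⟨t, ht⟩ := h
    rw [LL.al_eq ht]
    exact ⟨zero_le_one, le_rfl⟩
  · push Not at h
    rw [LL.al_eq_zero h]
    exact ⟨le_rfl, zero_le_one⟩

theorem integral_al {d m : ℕ} {r : ℤ → ℤ} {F : Set ℤ} (hm : 2 ≤ m) (n : ℤ) :
    ∫ z in (0 : ℝ)..1, LL.al d m r F (LL.ww m z) n = (1 - 1 / (m : ℝ)) / Real.log m * LL.al d m r F (fun _ => 1) n := by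
  by_cases h : ∃ t : ℤ, LL.Ht d m r F t n
  · obtain ⟨t, ht⟩ := h
    simp only [LL.al_eq ht]
    rw [integral_ww hm, mul_one]
  · push Not at h
    simp only [LL.al_eq_zero h]
    simp

theorem integral_am {d m : ℕ} {r : ℤ → ℤ} {F : Set ℤ} (hm : 2 ≤ m) (x : ℝ) :
    ∫ z in (0 : ℝ)..1, LL.am (LL.al d m r F (LL.ww m z)) x =
      (1 - 1 / (m : ℝ)) / Real.log m * LL.am (LL.al d m r F (fun _ => 1)) x := by
  unfold LL.am
  rw [intervalIntegral.integral_div, intervalIntegral.integral_finsetSum]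
  · simp only [integral_al hm]
    rw [← Finset.mul_sum, mul_div_assoc]
  · intro n _
    refine (MeasureTheory.Measure.integrableOn_of_bounded (M := 1) ?_ ?_ ?_).intervalIntegrable
    · simp
    · exact (measurable_al _).aestronglyMeasurable
    · refine Filter.Eventually.of_forall fun z => ?_
      have h1 := (al_bounds (d := d) (r := r) (F := F) hm z n)
      have h2 := al_one_le (d := d) (m := m) (r := r) (F := F) n
      have h3 : 0 ≤ 1 / (m : ℝ) * LL.al d m r F (fun _ => 1) n := mul_nonneg (by positivity) h2.1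
      rw [Real.norm_of_nonneg (h3.trans h1.1)]
      exact h1.2.trans h2.2

theorem am_le_one {f : ℤ → ℝ} (h0 : ∀ n, 0 ≤ f n) (h1 : ∀ n, f n ≤ 1) {x : ℝ} (hx : 0 < x) : 0 ≤ LL.am f x ∧ LL.am f x ≤ 1 := by
  unfold LL.am
  refine ⟨div_nonneg (Finset.sum_nonneg fun n _ => h0 _) hx.le, ?_⟩
  rw [div_le_one hx]
  calc ∑ n ∈ Finset.Icc 1 ⌊x⌋₊, f (n : ℤ) ≤ ∑ n ∈ Finset.Icc 1 ⌊x⌋₊, (1 : ℝ) := Finset.sum_le_sum fun n _ => h1 _
    _ = ⌊x⌋₊ := by simp
    _ ≤ x := Nat.floor_le hx.le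

theorem am_al_bounds {d m : ℕ} {r : ℤ → ℤ} {F : Set ℤ} (hm : 2 ≤ m) (z : ℝ) {x : ℝ} (hx : 0 < x) :
    1 / (m : ℝ) * LL.am (LL.al d m r F (fun _ => 1)) x ≤ LL.am (LL.al d m r F (LL.ww m z)) x ∧
      LL.am (LL.al d m r F (LL.ww m z)) x ≤ LL.am (LL.al d m r F (fun _ => 1)) x := by
  unfold LL.am
  constructor
  · rw [← mul_div_assoc, Finset.mul_sum]
    exact div_le_div_of_nonneg_right (Finset.sum_le_sum fun n _ => (al_bounds hm z _).1) hx.le
  · exact div_le_div_of_nonneg_right (Finset.sum_le_sum fun n _ => (al_bounds hm z _).2) hx.le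

/-- The density of the integers with a height. -/
theorem density {d m : ℕ} {r : ℤ → ℤ} (h : POSB.Std d m r) {F : Set ℤ} {b : ℝ} (hF : ∀ n ∈ F, (n : ℝ) ≤ b) :
    ∃ D : ℝ, 0 ≤ D ∧ D ≤ 1 ∧ (∀ a ∈ F, 0 < a → ¬ Dead d m r a → 0 < D) ∧ HasDensity {n | ∃ t : ℕ, (T d m r)^[t] n ∈ F} D := by
  have hF' : ∀ n ∈ F, (n : ℝ) ≤ max b 0 := fun n hn => (hF n hn).trans (le_max_left _ _)
  have htend := PL.stab_tendsto h.hd h.hdm h.hco h.hr h.gam h.mix (ST.tinv_hitI (d := d) (m := m) (r := r) hF')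
  have hdens : HasDensity (ST.hitI d m r F) (PL.dens (ST.hitI d m r F)) := PL.hasDensity_of_fd htend
  refine ⟨PL.dens (ST.hitI d m r F), ?_, ?_, ?_, hdens⟩
  · refine ge_of_tendsto htend ?_
    filter_upwards [eventually_ge_atTop 0] with x hx
    exact ND.fd_nonneg _ hx
  · refine le_of_tendsto hdens ?_
    filter_upwards [eventually_gt_atTop 0] with x hx
    have h1 := am_one (d := d) (m := m) (r := r) (F := F) hx.le
    have h2 := (am_le_one (f := LL.al d m r F (fun _ => 1)) (fun n => (al_one_le n).1) (fun n => (al_one_le n).2) hx).2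
    rw [h1] at h2
    exact h2
  · intro a ha ha0 hdead
    obtain ⟨c, hc, h1⟩ := POS.density_one h.hd h.hdm h.hco h.hw h.hr
    have ha0' : (0 : ℝ) < a := by exact_mod_cast ha0
    have h2 : c / a ≤ PL.dens (ST.hitI d m r F) := by
      refine ge_of_tendsto hdens ?_
      filter_upwards [eventually_ge_atTop (a : ℝ)] with x hx
      have hx0 : 0 < x := by linarith
      rw [le_div_iff₀ hx0]
      have h3 := h1 a x (by omega) hdead hx
      have h4 : c / a * x = c * x / a := by ring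
      rw [h4]
      refine h3.trans ?_
      unfold count
      have hfin : {n : ℤ | n ∈ ST.hitI d m r F ∧ 0 < n ∧ (n : ℝ) ≤ x}.Finite := by
        refine (Set.finite_Icc (1 : ℤ) ⌊x⌋).subset ?_
        rintro n ⟨-, h1, h2⟩
        exact ⟨by omega, Int.le_floor.2 h2⟩
      have hsub : {n : ℤ | (∃ t : ℕ, (T d m r)^[t] n = a) ∧ 0 < n ∧ (n : ℝ) ≤ x} ⊆
          {n : ℤ | n ∈ ST.hitI d m r F ∧ 0 < n ∧ (n : ℝ) ≤ x} := by
        rintro n ⟨⟨t, ht⟩, h1, h2⟩
        exact ⟨⟨t, by rw [ht]; exact ha⟩, h1, h2⟩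
      exact_mod_cast Set.ncard_le_ncard hsub hfin
    exact lt_of_lt_of_le (by positivity) h2

theorem tendsto_am_one {d m : ℕ} {r : ℤ → ℤ} {F : Set ℤ} {D : ℝ} (hD : HasDensity {n | ∃ t : ℕ, (T d m r)^[t] n ∈ F} D) :
    Tendsto (LL.am (LL.al d m r F (fun _ => 1))) atTop (𝓝 D) := by
  refine hD.congr' ?_
  filter_upwards [eventually_ge_atTop 0] with x hx
  exact (am_one hx).symm

theorem integral_W {d m : ℕ} {r : ℤ → ℤ} (h : POSB.Std d m r) {F : Set ℤ} {b : ℝ} (hb : 0 ≤ b) (hF : ∀ n ∈ F, (n : ℝ) ≤ b)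
    {D : ℝ} (hD : HasDensity {n | ∃ t : ℕ, (T d m r)^[t] n ∈ F} D) : ∫ z in (0 : ℝ)..1, W d m r F z = D := by
  have hd := h.hd
  have hdm := h.hdm
  have hm2 : 2 ≤ m := by omega
  have hm1 : (1 : ℝ) < m := by exact_mod_cast (by omega : 1 < m)
  have hm0 : (0 : ℝ) < m := by linarith
  have hlm : 0 < Real.log m := Real.log_pos hm1
  obtain ⟨h1, -, -, -, -⟩ := LL.W0_spec h hb hF
  have h2 : Tendsto (fun x : ℝ => ∫ z in (0 : ℝ)..1, LL.am (LL.al d m r F (LL.ww m z)) x) atTop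
      (𝓝 (∫ z in (0 : ℝ)..1, LL.W0 d m r F z)) := by
    refine intervalIntegral.tendsto_integral_filter_of_dominated_convergence (fun _ => 1) ?_ ?_ ?_ ?_
    · refine Filter.Eventually.of_forall fun x => ?_
      unfold LL.am
      exact ((Finset.measurable_fun_sum (Finset.Icc 1 ⌊x⌋₊) fun n _ => measurable_al (d := d) (m := m) (r := r) (F := F) (n : ℤ)).div_const x).aestronglyMeasurable
    · filter_upwards [eventually_gt_atTop 0] with x hx
      refine Filter.Eventually.of_forall fun z _ => ?_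
      have h3 := am_al_bounds (d := d) (r := r) (F := F) hm2 z hx
      have h4 := am_le_one (f := LL.al d m r F (fun _ => 1)) (fun n => (al_one_le n).1) (fun n => (al_one_le n).2) hx
      have h5 : 0 ≤ 1 / (m : ℝ) * LL.am (LL.al d m r F (fun _ => 1)) x := mul_nonneg (by positivity) h4.1
      rw [Real.norm_of_nonneg (h5.trans h3.1)]
      exact h3.2.trans h4.2
    · exact intervalIntegrable_const
    · exact Filter.Eventually.of_forall fun z _ => h1 z
  have h3 : Tendsto (fun x : ℝ => ∫ z in (0 : ℝ)..1, LL.am (LL.al d m r F (LL.ww m z)) x) atTop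
      (𝓝 ((1 - 1 / (m : ℝ)) / Real.log m * D)) := by
    simp only [integral_am hm2]
    exact (tendsto_am_one hD).const_mul _
  have h4 := tendsto_nhds_unique h2 h3
  unfold W
  simp only [meanValue_weight]
  rw [intervalIntegral.integral_const_mul, h4]
  have h5 : (m : ℝ) - 1 ≠ 0 := by linarith
  field_simp

theorem W_bounds {d m : ℕ} {r : ℤ → ℤ} (h : POSB.Std d m r) {F : Set ℤ} {b : ℝ} (hb : 0 ≤ b) (hF : ∀ n ∈ F, (n : ℝ) ≤ b)
    {D : ℝ} (hD : HasDensity {n | ∃ t : ℕ, (T d m r)^[t] n ∈ F} D) (z : ℝ) :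
    D * Real.log m / (m - 1) ≤ W d m r F z ∧ W d m r F z ≤ D * m * Real.log m / (m - 1) := by
  have hd := h.hd
  have hdm := h.hdm
  have hm2 : 2 ≤ m := by omega
  have hm1 : (1 : ℝ) < m := by exact_mod_cast (by omega : 1 < m)
  have hm0 : (0 : ℝ) < m := by linarith
  have hlm : 0 < Real.log m := Real.log_pos hm1
  have hm' : 0 < (m : ℝ) - 1 := by linarith
  obtain ⟨h1, -, -, -, -⟩ := LL.W0_spec h hb hF
  have h2 := tendsto_am_one hD
  have h3 : 1 / (m : ℝ) * D ≤ LL.W0 d m r F z := by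
    refine le_of_tendsto_of_tendsto (h2.const_mul _) (h1 z) ?_
    filter_upwards [eventually_gt_atTop 0] with x hx
    exact (am_al_bounds hm2 z hx).1
  have h4 : LL.W0 d m r F z ≤ D := by
    refine le_of_tendsto_of_tendsto (h1 z) h2 ?_
    filter_upwards [eventually_gt_atTop 0] with x hx
    exact (am_al_bounds hm2 z hx).2
  unfold W
  rw [meanValue_weight]
  constructor
  · calc D * Real.log m / (m - 1) = m * Real.log m / (m - 1) * (1 / (m : ℝ) * D) := by field_simp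
      _ ≤ _ := mul_le_mul_of_nonneg_left h3 (by positivity)
  · calc m * Real.log m / (m - 1) * LL.W0 d m r F z ≤ m * Real.log m / (m - 1) * D := mul_le_mul_of_nonneg_left h4 (by positivity)
      _ = D * m * Real.log m / (m - 1) := by ring

/-- The local limit theorem. -/
theorem local_limit {d m : ℕ} {r : ℤ → ℤ} (h : POSB.Std d m r) {F : Set ℤ} {b : ℝ} (hb : 0 ≤ b) (hF : ∀ n ∈ F, (n : ℝ) ≤ b)
    {ε : ℝ} (hε : 0 < ε) : ∃ X₀ : ℝ, 1 < X₀ ∧ ∀ x : ℝ, X₀ ≤ x → ∀ t : ℕ,
      |count {n | Height d m r F t n} x - x / (sdev d m * Real.sqrt (Real.log x)) *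
        (φ ((t - Real.log x / drift d m) / (sdev d m * Real.sqrt (Real.log x))) *
          W d m r F ((Real.log x - t * Real.log d) / Real.log m))| ≤ ε * (x / Real.sqrt (Real.log x)) := by
  have hd := h.hd
  have hdm := h.hdm
  have hγ : 0 < drift d m := h.gam
  have hsd : 0 < ST.sd d m := LL.sd_pos hd hdm hγ
  obtain ⟨X₀, hX₀, h1⟩ := LL.llt h hb hF hε
  refine ⟨X₀, hX₀, fun x hx t => ?_⟩
  have hx1 : 1 < x := lt_of_lt_of_le hX₀ hx
  have hx0 : 0 < x := by linarith
  have hL : 0 < Real.log x := Real.log_pos hx1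
  have hsL : 0 < Real.sqrt (Real.log x) := Real.sqrt_pos.2 hL
  have h2 := h1 x hx t
  rw [number_eq t hx0]
  have e1 : (t - Real.log x / drift d m) / (sdev d m * Real.sqrt (Real.log x)) = LL.uu d m t x := by
    unfold LL.uu
    rw [sdev_eq hd hγ]
    rfl
  rw [e1, phi_eq, sdev_eq hd hγ]
  unfold W
  rw [meanValue_weight]
  have e2 : x * LL.am (LL.ex d m r F (fun _ => 1) t) x - x / (ST.sd d m * Real.sqrt (Real.log x)) *
      (gaussianPDFReal 0 1 (LL.uu d m t x) *
        (m * Real.log m / (m - 1) * LL.W0 d m r F ((Real.log x - t * Real.log d) / Real.log m))) =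
      x / Real.sqrt (Real.log x) * (Real.sqrt (Real.log x) * LL.am (LL.ex d m r F (fun _ => 1) t) x -
        m * Real.log m / (m - 1) * LL.W0 d m r F ((Real.log x - t * Real.log d) / Real.log m) *
          gaussianPDFReal 0 1 (LL.uu d m t x) / ST.sd d m) := by
    generalize LL.W0 d m r F ((Real.log x - t * Real.log d) / Real.log m) = A
    generalize (m : ℝ) * Real.log m / (m - 1) = B
    field_simp
  rw [e2, abs_mul, abs_of_pos (by positivity : 0 < x / Real.sqrt (Real.log x)), mul_comm ε]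
  exact mul_le_mul_of_nonneg_left h2 (by positivity)

/-- The exact order of the number of the `n ≤ x` of a given height near the mean. -/
theorem order {d m : ℕ} {r : ℤ → ℤ} (h : POSB.Std d m r) {F : Set ℤ} {b : ℝ} (hb : 0 ≤ b) (hF : ∀ n ∈ F, (n : ℝ) ≤ b)
    {D : ℝ} (hD : HasDensity {n | ∃ t : ℕ, (T d m r)^[t] n ∈ F} D) (hD0 : 0 < D) {C : ℝ} (hC : 0 < C) :
    ∃ c X₀ : ℝ, 0 < c ∧ 1 < X₀ ∧ ∀ x : ℝ, X₀ ≤ x → ∀ t : ℕ, |t - Real.log x / drift d m| ≤ C * Real.sqrt (Real.log x) →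
      c * (x / Real.sqrt (Real.log x)) ≤ count {n | Height d m r F t n} x := by
  have hd := h.hd
  have hdm := h.hdm
  have hm1 : (1 : ℝ) < m := by exact_mod_cast (by omega : 1 < m)
  have hm0 : (0 : ℝ) < m := by linarith
  have hm' : 0 < (m : ℝ) - 1 := by linarith
  have hlm : 0 < Real.log m := Real.log_pos hm1
  have hγ : 0 < drift d m := h.gam
  have hsd : 0 < sdev d m := by
    rw [sdev_eq hd hγ]
    exact LL.sd_pos hd hdm hγ
  set w := D * Real.log m / (m - 1) with hw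
  have hw0 : 0 < w := by positivity
  set p := φ (C / sdev d m) with hp
  have hp0 : 0 < p := by rw [hp]; unfold φ; positivity
  obtain ⟨X₀, hX₀, h1⟩ := local_limit h hb hF (ε := p * w / (2 * sdev d m)) (by positivity)
  refine ⟨p * w / (2 * sdev d m), X₀, by positivity, hX₀, fun x hx t ht => ?_⟩
  have hx1 : 1 < x := lt_of_lt_of_le hX₀ hx
  have hx0 : 0 < x := by linarith
  have hL : 0 < Real.log x := Real.log_pos hx1
  have hsL : 0 < Real.sqrt (Real.log x) := Real.sqrt_pos.2 hL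
  have h2 := (abs_le.1 (h1 x hx t)).1
  have h3 : p ≤ φ ((t - Real.log x / drift d m) / (sdev d m * Real.sqrt (Real.log x))) := by
    rw [hp]
    unfold φ
    refine div_le_div_of_nonneg_right (Real.exp_le_exp.2 ?_) (Real.sqrt_nonneg _)
    have h4 : |(t - Real.log x / drift d m) / (sdev d m * Real.sqrt (Real.log x))| ≤ |C / sdev d m| := by
      rw [abs_div, abs_of_pos (by positivity : 0 < sdev d m * Real.sqrt (Real.log x)), abs_of_pos (by positivity : 0 < C / sdev d m),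
        div_le_div_iff₀ (by positivity) hsd]
      calc |t - Real.log x / drift d m| * sdev d m ≤ C * Real.sqrt (Real.log x) * sdev d m := mul_le_mul_of_nonneg_right ht hsd.le
        _ = _ := by ring
    have h5 := sq_le_sq.2 h4
    linarith
  have h6 := (W_bounds h hb hF hD ((Real.log x - t * Real.log d) / Real.log m)).1
  have h7 : p * w ≤ φ ((t - Real.log x / drift d m) / (sdev d m * Real.sqrt (Real.log x))) *
      W d m r F ((Real.log x - t * Real.log d) / Real.log m) := mul_le_mul h3 h6 hw0.le (hp0.le.trans h3)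
  have h8 : x / (sdev d m * Real.sqrt (Real.log x)) * (p * w) ≤ x / (sdev d m * Real.sqrt (Real.log x)) *
      (φ ((t - Real.log x / drift d m) / (sdev d m * Real.sqrt (Real.log x))) *
      W d m r F ((Real.log x - t * Real.log d) / Real.log m)) := mul_le_mul_of_nonneg_left h7 (by positivity)
  have h9 : x / (sdev d m * Real.sqrt (Real.log x)) * (p * w) = 2 * (p * w / (2 * sdev d m) * (x / Real.sqrt (Real.log x))) := by
    field_simp
  linarith

theorem general (d m : ℕ) (hd : 2 ≤ d) (hdm : d < m) (hco : Nat.Coprime m d)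
    (hm : (m : ℝ) ≤ (d : ℝ) ^ ((d : ℝ) / ((d : ℝ) - 1))) (r : ℤ → ℤ) (hr : Admissible d m r)
    (F : Set ℤ) (b : ℝ) (hF : ∀ n ∈ F, (n : ℝ) ≤ b) :
    ∃ D : ℝ, 0 ≤ D ∧ (∀ a ∈ F, 0 < a → ¬ Dead d m r a → 0 < D) ∧
      HasDensity {n | ∃ t : ℕ, (T d m r)^[t] n ∈ F} D ∧
      (∀ z : ℝ, Tendsto (fun x : ℝ => (∑ n ∈ Finset.Icc 1 ⌊x⌋₊, weight d m r F z (n : ℤ)) / x) atTop
        (𝓝 (meanValue (weight d m r F z)))) ∧
      Continuous (W d m r F) ∧ (∀ z : ℝ, W d m r F (z + 1) = W d m r F z) ∧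
      ∫ z in (0 : ℝ)..1, W d m r F z = D ∧
      (∀ z : ℝ, D * Real.log m / (m - 1) ≤ W d m r F z ∧ W d m r F z ≤ D * m * Real.log m / (m - 1)) ∧
      ∀ ε : ℝ, 0 < ε → ∃ X₀ : ℝ, 1 < X₀ ∧ ∀ x : ℝ, X₀ ≤ x → ∀ t : ℕ,
        |count {n | Height d m r F t n} x - x / (sdev d m * Real.sqrt (Real.log x)) *
          (φ ((t - Real.log x / drift d m) / (sdev d m * Real.sqrt (Real.log x))) *
            W d m r F ((Real.log x - t * Real.log d) / Real.log m))| ≤ ε * (x / Real.sqrt (Real.log x)) := by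
  have h : POSB.Std d m r := ⟨hd, hdm, hco, hm, hr⟩
  have hb : 0 ≤ max b 0 := le_max_right _ _
  have hF' : ∀ n ∈ F, (n : ℝ) ≤ max b 0 := fun n hn => (hF n hn).trans (le_max_left _ _)
  obtain ⟨D, hD0, -, hDpos, hD⟩ := density h hF
  obtain ⟨h1, h2, h3, -, -⟩ := LL.W0_spec h hb hF'
  have e : W d m r F = fun z => m * Real.log m / (m - 1) * LL.W0 d m r F z := by
    funext z
    unfold W
    rw [meanValue_weight]
  refine ⟨D, hD0, hDpos, hD, fun z => ?_, ?_, fun z => ?_, integral_W h hb hF' hD, W_bounds h hb hF' hD, fun ε hε => local_limit h hb hF' hε⟩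
  · rw [meanValue_weight]
    simp only [weight_eq]
    exact h1 z
  · rw [e]
    exact continuous_const.mul h2
  · simp only [e, h3 z]

/-- For `3x + 1`: every `t` within `C √(log x)` of `(2 / log (4 / 3)) log x` is the number of the steps to `1` of at least
`c x / √(log x)` integers `n ≤ x`. -/
theorem three (C : ℝ) (hC : 0 < C) : ∃ c X₀ : ℝ, 0 < c ∧ 1 < X₀ ∧ ∀ x : ℝ, X₀ ≤ x → ∀ t : ℕ,
    |t - 2 / Real.log (4 / 3) * Real.log x| ≤ C * Real.sqrt (Real.log x) →
      c * (x / Real.sqrt (Real.log x)) ≤ count {n | T3^[t] n = 1 ∧ ∀ i < t, T3^[i] n ≠ 1} x := by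
  have hs : POSB.Std 2 3 (fun _ => -1) := POSB.std_three
  have hF : ∀ n ∈ ({1} : Set ℤ), (n : ℝ) ≤ 1 := by simp
  obtain ⟨D, -, -, hDpos, hD⟩ := density hs hF
  have hD0 : 0 < D := by
    refine hDpos 1 rfl one_pos ?_
    intro hdead
    have := (PL.dead_three 1).1 hdead
    omega
  obtain ⟨c, X₀, hc, hX₀, h1⟩ := order hs zero_le_one hF hD hD0 hC
  refine ⟨c, X₀, hc, hX₀, fun x hx t ht => ?_⟩
  have hl : 0 < Real.log (4 / 3) := Real.log_pos (by norm_num)
  have hdr : drift 2 3 = Real.log (4 / 3) / 2 := by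
    unfold drift
    rw [Real.log_div (by norm_num) (by norm_num), show (4 : ℝ) = 2 ^ 2 by norm_num, Real.log_pow]
    push_cast
    ring
  have h2 := h1 x hx t (by
    rw [hdr, show Real.log x / (Real.log (4 / 3) / 2) = 2 / Real.log (4 / 3) * Real.log x by field_simp]
    exact ht)
  exact h2

/-- **The local limit theorem for the heights**, with its periodic factor, which is not constant for `F = {n ≤ b}`, `b` large. -/
theorem result (d m : ℕ) (hd : 2 ≤ d) (hdm : d < m) (hco : Nat.Coprime m d)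
    (hm : (m : ℝ) ≤ (d : ℝ) ^ ((d : ℝ) / ((d : ℝ) - 1))) (r : ℤ → ℤ) (hr : Admissible d m r) :
    (∀ (F : Set ℤ) (b : ℝ), (∀ n ∈ F, (n : ℝ) ≤ b) →
      ∃ D : ℝ, 0 ≤ D ∧ (∀ a ∈ F, 0 < a → ¬ Dead d m r a → 0 < D) ∧
        HasDensity {n | ∃ t : ℕ, (T d m r)^[t] n ∈ F} D ∧
        (∀ z : ℝ, Tendsto (fun x : ℝ => (∑ n ∈ Finset.Icc 1 ⌊x⌋₊, weight d m r F z (n : ℤ)) / x) atTop
          (𝓝 (meanValue (weight d m r F z)))) ∧
        Continuous (W d m r F) ∧ (∀ z : ℝ, W d m r F (z + 1) = W d m r F z) ∧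
        ∫ z in (0 : ℝ)..1, W d m r F z = D ∧
        (∀ z : ℝ, D * Real.log m / (m - 1) ≤ W d m r F z ∧ W d m r F z ≤ D * m * Real.log m / (m - 1)) ∧
        ∀ ε : ℝ, 0 < ε → ∃ X₀ : ℝ, 1 < X₀ ∧ ∀ x : ℝ, X₀ ≤ x → ∀ t : ℕ,
          |count {n | Height d m r F t n} x - x / (sdev d m * Real.sqrt (Real.log x)) *
            (φ ((t - Real.log x / drift d m) / (sdev d m * Real.sqrt (Real.log x))) *
              W d m r F ((Real.log x - t * Real.log d) / Real.log m))| ≤ ε * (x / Real.sqrt (Real.log x))) ∧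
    -- for `F = {n ≤ b}`, `b` large, the periodic factor is not constant
    ∃ B₀ : ℝ, ∀ b : ℝ, B₀ ≤ b → ∃ z z' : ℝ, W d m r {n : ℤ | (n : ℝ) ≤ b} z ≠ W d m r {n : ℤ | (n : ℝ) ≤ b} z' := by
  refine ⟨general d m hd hdm hco hm r hr, ?_⟩
  have h : POSB.Std d m r := ⟨hd, hdm, hco, hm, hr⟩
  obtain ⟨B₀, -, h1⟩ := LL.nonconst h
  refine ⟨B₀, fun b hb => ?_⟩
  obtain ⟨z, z', h2⟩ := h1 b hb
  have hm1 : (1 : ℝ) < m := by exact_mod_cast (by omega : 1 < m)
  have hm0 : (0 : ℝ) < m := by linarith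
  have hm' : 0 < (m : ℝ) - 1 := by linarith
  have hlm : 0 < Real.log m := Real.log_pos hm1
  refine ⟨z, z', fun h3 => h2 ?_⟩
  unfold W at h3
  rw [meanValue_weight, meanValue_weight] at h3
  exact mul_left_cancel₀ (by positivity) h3

end Pool.Agent.Results.MP_fd8838_nt.LocalLimitTheorem
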